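import Pool.Agent.MT100A.StmtsL
import Pool.Agent.Helper78_MTA.Uex

/-! LOG: subspaces stable under conjugation by a unipotent matrix are stable under its logarithm -/

set_option autoImplicit false

namespace Pool.Agent.MT100A.H96

open Matrix Polynomial Pool.Agent.MT100A

variable {d : Type} [Fintype d] [DecidableEq d]

/-- the binomial coefficient as a polynomial -/
noncomputable def bin (k : ℕ) : ℂ[X] := C ((k.factorial : ℂ)⁻¹) * descPochhammer ℂ k

theorem bin_eval (k n : ℕ) : (bin k).eval (n : ℂ) = (n.choose k : ℂ) := by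
  unfold bin
  rw [eval_mul, eval_C, descPochhammer_eval_eq_descFactorial, Nat.descFactorial_eq_factorial_mul_choose]
  push_cast
  rw [← mul_assoc, inv_mul_cancel₀ (Nat.cast_ne_zero.mpr k.factorial_ne_zero), one_mul]

theorem bin_zero : bin 0 = 1 := by simp [bin]

theorem bin_eval_zero (k : ℕ) : (bin (k + 1)).eval 0 = 0 := by
  have h := bin_eval (k + 1) 0
  simpa using h

theorem desc_eval_neg (k : ℕ) : (descPochhammer ℂ k).eval (-1) = (-1) ^ k * (k.factorial : ℂ) := by
  induction k with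
  | zero => simp
  | succ k ih =>
    rw [descPochhammer_succ_right, eval_mul, ih, eval_sub, eval_X, eval_natCast, Nat.factorial_succ]
    push_cast
    ring

theorem bin_deriv (k : ℕ) : (derivative (bin (k + 1))).eval 0 = (-1 : ℂ) ^ k * ((k : ℂ) + 1)⁻¹ := by
  have h1 : (k.factorial : ℂ) ≠ 0 := Nat.cast_ne_zero.mpr k.factorial_ne_zero
  have h2 : ((k : ℂ) + 1) ≠ 0 := by exact_mod_cast Nat.succ_ne_zero k
  unfold bin
  rw [descPochhammer_succ_left, derivative_C_mul, derivative_mul, derivative_X, one_mul, eval_mul,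
    eval_C, eval_add, eval_mul, eval_X, zero_mul, add_zero, eval_comp, eval_sub, eval_X, eval_one,
    zero_sub, desc_eval_neg, Nat.factorial_succ]
  push_cast
  field_simp

theorem upow {U : Matrix d d ℂ} (hU : IsNilpotent (U - 1)) (n : ℕ) :
    U ^ n = ∑ k ∈ Finset.range (Fintype.card d + 1), (n.choose k : ℂ) • (U - 1) ^ k := by
  have h0 : U = (U - 1) + 1 := by abel
  have h1 : U ^ n = ∑ k ∈ Finset.range (n + 1), (n.choose k : ℂ) • (U - 1) ^ k := by
    conv_lhs => rw [h0, (Commute.one_right (U - 1)).add_pow]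
    apply Finset.sum_congr rfl
    intro k _
    rw [one_pow, mul_one, ← nsmul_eq_mul', ← Nat.cast_smul_eq_nsmul ℂ]
  rw [h1]
  have e1 : ∑ k ∈ Finset.range (n + 1), (n.choose k : ℂ) • (U - 1) ^ k =
      ∑ k ∈ Finset.range (n + 1 + (Fintype.card d + 1)), (n.choose k : ℂ) • (U - 1) ^ k := by
    apply Finset.sum_subset
    · intro k hk
      rw [Finset.mem_range] at hk ⊢
      omega
    · intro k _ hk
      rw [Finset.mem_range] at hk
      rw [Nat.choose_eq_zero_of_lt (by omega), Nat.cast_zero, zero_smul]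
  have e2 : ∑ k ∈ Finset.range (Fintype.card d + 1), (n.choose k : ℂ) • (U - 1) ^ k =
      ∑ k ∈ Finset.range (n + 1 + (Fintype.card d + 1)), (n.choose k : ℂ) • (U - 1) ^ k := by
    apply Finset.sum_subset
    · intro k hk
      rw [Finset.mem_range] at hk ⊢
      omega
    · intro k _ hk
      rw [Finset.mem_range] at hk
      rw [pow_eq_zero_of_le (by omega) (Pool.Agent.MT100A.H78.pow_card hU), smul_zero]
  rw [e1, e2]

theorem key {U V : Matrix d d ℂ} (hU : IsNilpotent (U - 1)) (hV : IsNilpotent (V - 1))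
    (φ : Matrix d d ℂ →ₗ[ℂ] ℂ) (A : Matrix d d ℂ) (c : ℂ) (h : ∀ n : ℕ, φ (U ^ n * A * V ^ n) = c) :
    φ (lg U * A + A * lg V) = 0 := by
  set m := Fintype.card d with hm
  let p : ℂ[X] := ∑ k ∈ Finset.range (m + 1), ∑ l ∈ Finset.range (m + 1),
    bin k * bin l * C (φ ((U - 1) ^ k * A * (V - 1) ^ l))
  have hp : ∀ n : ℕ, p.eval (n : ℂ) = c := by
    intro n
    rw [← h n, upow hU n, upow hV n]
    simp only [p, eval_finsetSum, eval_mul, bin_eval, eval_C, Finset.sum_mul, Finset.mul_sum,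
      map_sum, Matrix.smul_mul, Matrix.mul_smul, map_smul, smul_eq_mul]
    rw [Finset.sum_comm]
    apply Finset.sum_congr rfl
    intro l _
    apply Finset.sum_congr rfl
    intro k _
    ring
  have hp0 : p - C c = 0 := by
    apply Polynomial.eq_zero_of_infinite_isRoot
    apply Set.Infinite.mono _ (Set.infinite_range_of_injective (Nat.cast_injective (R := ℂ)))
    rintro _ ⟨n, rfl⟩
    rw [Set.mem_ofPred_eq, IsRoot.def, eval_sub, eval_C, hp n, sub_self]
  have hd : (derivative p).eval 0 = 0 := by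
    rw [sub_eq_zero.mp hp0, derivative_C, eval_zero]
  have hbz : ∀ k ∈ Finset.range m, (bin (k + 1)).eval 0 = 0 := fun k _ => bin_eval_zero k
  have hd0 : (derivative (bin 0)).eval 0 = 0 := by rw [bin_zero, derivative_one, eval_zero]
  have hb0 : (bin 0).eval 0 = 1 := by rw [bin_zero, eval_one]
  have e : (derivative p).eval 0 = φ (lg U * A + A * lg V) := by
    simp only [p, derivative_sum, derivative_mul, derivative_C, mul_zero, add_zero,
      eval_finsetSum, eval_mul, eval_add, eval_C]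
    rw [Finset.sum_range_succ']
    simp only [Finset.sum_range_succ', hd0, hb0, bin_eval_zero, zero_mul, mul_zero, add_zero,
      zero_add, Finset.sum_const_zero, mul_one, one_mul, pow_zero, Matrix.mul_one, Matrix.one_mul,
      bin_deriv]
    unfold lg
    rw [map_add, Finset.sum_mul, Finset.mul_sum, map_sum, map_sum]
    simp only [Matrix.smul_mul, Matrix.mul_smul, map_smul, smul_eq_mul, hm]
  rw [← e, hd]

theorem unip_inv {U : Matrix d d ℂ} (hU : IsNilpotent (U - 1)) :
    U * U⁻¹ = 1 ∧ U⁻¹ * U = 1 ∧ IsNilpotent (U⁻¹ - 1) := by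
  have h1 : IsUnit U := by
    have h := hU.isUnit_add_one
    rwa [sub_add_cancel] at h
  have h2 : IsUnit U.det := (Matrix.isUnit_iff_isUnit_det U).mp h1
  have h3 := Matrix.mul_nonsing_inv U h2
  have h4 := Matrix.nonsing_inv_mul U h2
  refine ⟨h3, h4, ?_⟩
  have h5 : U⁻¹ - 1 = -(U⁻¹ * (U - 1)) := by rw [mul_sub, h4, mul_one]; abel
  have h6 : Commute U⁻¹ (U - 1) := by
    unfold Commute SemiconjBy
    rw [mul_sub, sub_mul, h3, h4, mul_one, one_mul]
  rw [h5]
  exact (h6.isNilpotent_mul_left hU).neg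

theorem lg_inv {U : Matrix d d ℂ} (hU : IsNilpotent (U - 1)) : lg U⁻¹ = - lg U := by
  obtain ⟨h3, h4, h5⟩ := unip_inv hU
  have h : ∀ n : ℕ, U ^ n * (1 : Matrix d d ℂ) * U⁻¹ ^ n = 1 := by
    intro n
    rw [mul_one, ← (show Commute U U⁻¹ by unfold Commute SemiconjBy; rw [h3, h4]).mul_pow, h3, one_pow]
  have h6 : lg U * 1 + 1 * lg U⁻¹ = 0 := by
    by_contra hne
    obtain ⟨φ, hφ, -⟩ := Submodule.exists_le_ker_of_notMem (p := (⊥ : Submodule ℂ (Matrix d d ℂ)))
      (v := lg U * 1 + 1 * lg U⁻¹) (by simpa using hne)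
    exact hφ (key hU h5 φ 1 (φ 1) (fun n => by rw [h n]))
  rw [mul_one, one_mul] at h6
  exact eq_neg_of_add_eq_zero_right h6

/-- LOG -/
theorem log : LogStmt := by
  intro d _ _ U hU W hW A hA
  obtain ⟨h3, h4, h5⟩ := unip_inv hU
  have hn : ∀ n : ℕ, U ^ n * A * U⁻¹ ^ n ∈ W := by
    intro n
    induction n with
    | zero => simpa using hA
    | succ n ih =>
      have h := hW _ ih
      have e : U * (U ^ n * A * U⁻¹ ^ n) * U⁻¹ = U ^ (n + 1) * A * U⁻¹ ^ (n + 1) := by
        rw [pow_succ' U, pow_succ U⁻¹]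
        simp only [Matrix.mul_assoc]
      rwa [e] at h
  by_contra hne
  obtain ⟨φ, hφ, hker⟩ := Submodule.exists_le_ker_of_notMem hne
  apply hφ
  have h := key hU h5 φ A 0 (fun n => hker (hn n))
  rwa [lg_inv hU, mul_neg, ← sub_eq_add_neg] at h

end Pool.Agent.MT100A.H96
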