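import Pool.Agent.MT100A.Stmts

/-! Module PSA of MT100-A: relations persist under the product of the Zariski closures of the
monodromy groups of separated translates. -/

set_option autoImplicit false
set_option linter.unusedSectionVars false

namespace Pool.Agent.MT100A.H96

open Matrix MvPolynomial Pool.Agent.MT100 Pool.Agent.Helper78_MT Pool.Agent.MT100G
  Pool.Agent.MT100A

variable {d : Type} [Fintype d] [DecidableEq d]

/-- the substitution `Y i ↦ Y i * g i` -/
noncomputable def sbG {ι : Type} (g : ι → Matrix d d ℂ) :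
    Bool ⊕ (ι × d × d) → MvPolynomial (Bool ⊕ (ι × d × d)) ℂ
  | Sum.inl b => X (Sum.inl b)
  | Sum.inr x => ∑ c, X (Sum.inr (x.1, x.2.1, c)) * C (g x.1 c x.2.2)

theorem eval_sbG {ι : Type} (g : ι → Matrix d d ℂ) (w l : ℂ) (Y : ι → Matrix d d ℂ)
    (Φ : MvPolynomial (Bool ⊕ (ι × d × d)) ℂ) :
    MvPolynomial.eval (vr w l Y) (bind₁ (sbG g) Φ) =
      MvPolynomial.eval (vr w l fun i => Y i * g i) Φ := by
  rw [← MvPolynomial.coe_aeval_eq_eval, ← MvPolynomial.coe_aeval_eq_eval]
  show (aeval (vr w l Y)) ((bind₁ (sbG g)) Φ) = (aeval (vr w l fun i => Y i * g i)) Φ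
  rw [MvPolynomial.aeval_bind₁]
  congr 2
  funext v
  rcases v with b | ⟨i, a, b⟩
  · cases b <;> simp [sbG, vr]
  · simp [sbG, vr, Matrix.mul_apply]

/-- the substitution which keeps only the entries of the matrix with index `j` as variables -/
noncomputable def sbJ {ι : Type} [DecidableEq ι] (j : ι) (w l : ℂ) (Z : Matrix d d ℂ)
    (Y : ι → Matrix d d ℂ) : Bool ⊕ (ι × d × d) → MvPolynomial (d × d) ℂ
  | Sum.inl false => C w
  | Sum.inl true => C l
  | Sum.inr x => if x.1 = j then ∑ c, C (Z x.2.1 c) * X (c, x.2.2) else C (Y x.1 x.2.1 x.2.2)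

theorem pev_sbJ {ι : Type} [DecidableEq ι] (j : ι) (w l : ℂ) (Z : Matrix d d ℂ)
    (Y : ι → Matrix d d ℂ) (T : Matrix d d ℂ) (Φ : MvPolynomial (Bool ⊕ (ι × d × d)) ℂ) :
    pev T (bind₁ (sbJ j w l Z Y) Φ) =
      MvPolynomial.eval (vr w l (Function.update Y j (Z * T))) Φ := by
  unfold pev
  rw [← MvPolynomial.coe_aeval_eq_eval]
  show (aeval _) ((bind₁ (sbJ j w l Z Y)) Φ) = _
  rw [MvPolynomial.aeval_bind₁]
  show _ = (aeval (vr w l (Function.update Y j (Z * T)))) Φ
  congr 2
  funext v
  rcases v with b | ⟨i, a, b⟩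
  · cases b <;> simp [sbJ, vr]
  · by_cases hij : i = j
    · subst hij
      simp [sbJ, vr, Matrix.mul_apply]
    · simp [sbJ, vr, hij, Function.update_of_ne]

/-- the monodromy group is contained in its Zariski closure -/
theorem mo_sub_Zc (hM : MoaStmt) (F : Sys d) {m : Matrix d d ℂ} (hm : m ∈ F.mo Set.univ) :
    m ∈ F.Zc :=
  ⟨(hM d F Set.univ).1 m hm, fun _ hp => hp m hm⟩

theorem one_Zc (hM : MoaStmt) (F : Sys d) : (1 : Matrix d d ℂ) ∈ F.Zc :=
  mo_sub_Zc hM F (hM d F Set.univ).2.1

/-- the Zariski closure is stable under left multiplication by the monodromy group -/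
theorem mo_mul_Zc (hM : MoaStmt) (F : Sys d) {m M : Matrix d d ℂ} (hm : m ∈ F.mo Set.univ)
    (h : M ∈ F.Zc) : m * M ∈ F.Zc := by
  obtain ⟨hu, -, hmul, -⟩ := hM d F Set.univ
  refine ⟨?_, fun p hp => ?_⟩
  · rw [Matrix.det_mul]
    exact (hu m hm).mul h.1
  · rw [← pev_lsub]
    apply h.2
    intro s hs
    rw [pev_lsub]
    exact hp _ (hmul m hm s hs)

theorem psa (hM : MoaStmt) (h1 : T1aStmt) (h2 : TuaStmt) (hP : PmaStmt) : PsaStmt := by
  intro d _ _ F
  obtain ⟨D, hD⟩ := h2 d F
  refine ⟨max D 1, ?_⟩
  intro ι _ _ κ hsep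
  have hsepD : Sep D κ := by
    refine ⟨fun i => le_trans (le_max_left _ _) (hsep.1 i), fun i j hij => ?_⟩
    rcases hsep.2 i j hij with h | h
    · exact Or.inl (le_trans (le_max_left _ _) h)
    · exact Or.inr (le_trans (le_max_left _ _) h)
  have hκ : Function.Injective κ := by
    intro i j hij
    by_contra hne
    rcases hsep.2 i j hne with h | h
    · have := le_trans (le_max_right D 1) h
      omega
    · have := le_trans (le_max_right D 1) h
      omega
  obtain ⟨hMu, hM1, hMm, hMi⟩ := hM d F Set.univ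
  obtain ⟨hT0, hT1, hTm, hTi⟩ := h1 d F ι κ
  obtain ⟨R0, hR0⟩ := hP d F ι κ
  refine ⟨R0, fun Φ hΦ => ?_⟩
  have key : ∀ n : ℕ, ∀ s : Finset ι, s.card = n → (∀ i ∈ s, ∀ i', κ i < κ i' → i' ∈ s) →
      ∀ w : ℝ, R0 < w → ∀ g : ι → Matrix d d ℂ, (∀ i, g i ∈ F.Zc) → (∀ i, i ∉ s → g i = 1) →
        MvPolynomial.eval (vr (w : ℂ) (Complex.log w)
          fun i => YH F.H F.N ((w : ℂ) - κ i) * g i) Φ = 0 := by
    intro n
    induction n with
    | zero =>
      intro s hs hup w hw g hg hg1
      have hs0 : s = ∅ := Finset.card_eq_zero.mp hs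
      have hgg : g = fun _ => 1 := by
        funext i
        exact hg1 i (by simp [hs0])
      subst hgg
      have := hR0 Φ hΦ _ hT1 w hw
      simpa using this
    | succ n ih =>
      intro s hs hup w hw g hg hg1
      have hne : s.Nonempty := by
        rw [← Finset.card_pos]; omega
      obtain ⟨j, hj, hmin⟩ := Finset.exists_min_image s κ hne
      have hcard : (s.erase j).card = n := by
        rw [Finset.card_erase_of_mem hj, hs]; rfl
      have hup' : ∀ i ∈ s.erase j, ∀ i', κ i < κ i' → i' ∈ s.erase j := by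
        intro i hi i' hii'
        rw [Finset.mem_erase] at hi ⊢
        refine ⟨?_, hup i hi.2 i' hii'⟩
        rintro rfl
        exact absurd (hmin i hi.2) (not_le.mpr hii')
      have hlow : ∀ i, i ∉ s → κ i < κ j := by
        intro i hi
        rcases lt_trichotomy (κ i) (κ j) with h | h | h
        · exact h
        · exact absurd (hκ h ▸ hj) hi
        · exact absurd (hup j hj i h) hi
      -- the polynomial in the entries of the matrix at `j`
      let Y : ι → Matrix d d ℂ := fun i => YH F.H F.N ((w : ℂ) - κ i) * g i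
      have hpoly : ∀ T ∈ F.Zc,
          pev T (bind₁ (sbJ j (w : ℂ) (Complex.log w) (YH F.H F.N ((w : ℂ) - κ j)) Y) Φ) = 0 := by
        intro T hT
        refine hT.2 _ ?_
        intro m hm
        obtain ⟨t, ht, htj, ht0, ht1⟩ := hD ι κ hsepD j m hm
        rw [pev_sbJ, ← htj]
        -- the matrices for the induction hypothesis
        let g' : ι → Matrix d d ℂ := fun i => if i = j then 1 else (t.1 i)⁻¹ * g i
        have hg' : ∀ i, g' i ∈ F.Zc := by
          intro i
          by_cases hij : i = j
          · simp only [g', hij, if_true]; exact one_Zc hM F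
          · simp only [g', hij, if_false]
            exact mo_mul_Zc hM F (hMi _ (hT0 t ht i)) (hg i)
        have hg'1 : ∀ i, i ∉ s.erase j → g' i = 1 := by
          intro i hi
          by_cases hij : i = j
          · simp [g', hij]
          · have his : i ∉ s := fun h => hi (Finset.mem_erase.mpr ⟨hij, h⟩)
            simp [g', hij, ht1 i (hlow i his), hg1 i his]
        have hih : ∀ w : ℝ, R0 < w → MvPolynomial.eval (vr (w : ℂ) (Complex.log w)
            fun i => YH F.H F.N ((w : ℂ) - κ i)) (bind₁ (sbG g') Φ) = 0 := by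
          intro w' hw'
          rw [eval_sbG]
          exact ih (s.erase j) hcard hup' w' hw' g' hg' hg'1
        have hev : ∀ᶠ w : ℝ in Filter.atTop, MvPolynomial.eval (vr (w : ℂ) (Complex.log w)
            fun i => YH F.H F.N ((w : ℂ) - κ i)) (bind₁ (sbG g') Φ) = 0 :=
          (Filter.eventually_gt_atTop R0).mono hih
        have hres := hR0 _ hev t ht w hw
        rw [eval_sbG, ht0] at hres
        have hY : Function.update Y j (YH F.H F.N ((w : ℂ) - κ j) * t.1 j) =
            fun i => YH F.H F.N ((w : ℂ) - κ i) * t.1 i * g' i := by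
          funext i
          by_cases hij : i = j
          · subst hij
            simp [g']
          · rw [Function.update_of_ne hij]
            have hut : IsUnit (t.1 i).det := hMu _ (hT0 t ht i)
            simp only [g', hij, if_false, Y]
            rw [Matrix.mul_assoc, ← Matrix.mul_assoc (t.1 i), Matrix.mul_nonsing_inv _ hut,
              Matrix.one_mul]
        rw [hY]
        simpa using hres
      have hfin := hpoly (g j) (hg j)
      rw [pev_sbJ] at hfin
      have hY : Function.update Y j (YH F.H F.N ((w : ℂ) - κ j) * g j) = Y := by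
        funext i
        by_cases hij : i = j
        · subst hij
          simp [Y]
        · rw [Function.update_of_ne hij]
      rw [hY] at hfin
      exact hfin
  intro w hw g hg
  exact key _ Finset.univ rfl (fun _ _ _ _ => Finset.mem_univ _) w hw g hg
    (fun i hi => absurd (Finset.mem_univ i) hi)

end Pool.Agent.MT100A.H96
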